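import Pool.Agent.Lib.FT.SpecB

set_option autoImplicit false

noncomputable section

namespace Pool.Agent.FT

private theorem norm_le_of_two {D : Type} [CStarAlgebra D] [PartialOrder D] [StarOrderedRing D]
    {x : D} {r : ℝ} (hr : 0 ≤ r) (hx : IsSelfAdjoint x) (h1 : x ≤ algebraMap ℝ D r)
    (h2 : -algebraMap ℝ D r ≤ x) : ‖x‖ ≤ r := by
  have h3 : ∀ t ∈ spectrum ℝ x, ‖t‖ ≤ r := by
    intro t ht
    have a1 := (le_algebraMap_iff_spectrum_le (a := x) (r := r)).mp h1 t ht
    have a2 := (algebraMap_le_iff_le_spectrum (a := x) (r := -r)).mp (by simpa using h2) t ht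
    rw [Real.norm_eq_abs, abs_le]
    exact ⟨a2, a1⟩
  have h4 := norm_cfc_le (f := fun t : ℝ => t) (a := x) hr h3
  rwa [cfc_id' ℝ x] at h4

private theorem conj_rpow {D : Type} [CStarAlgebra D] [PartialOrder D] [StarOrderedRing D]
    {T u : D} (hT : 0 ≤ T) (hu : star u * u = 1) (hu' : u * star u = 1) {p : ℝ} (hp : 0 ≤ p) :
    u * T ^ p * star u = (u * T * star u) ^ p := by
  let w : unitary D := ⟨u, Unitary.mem_iff.mpr ⟨hu, hu'⟩⟩
  have hsa : IsSelfAdjoint (u * T * star u) := by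
    rw [isSelfAdjoint_iff, star_mul, star_mul, star_star, hT.isSelfAdjoint.star_eq, mul_assoc]
  have hcont : Continuous (fun t : ℝ => t ^ p) := Real.continuous_rpow_const hp
  have h0 : Continuous (Unitary.conjStarAlgAut ℂ D w) := by
    change Continuous fun x => u * x * star u
    fun_prop
  have h1 := StarAlgHomClass.map_cfc (R := ℝ) (S := ℂ) (Unitary.conjStarAlgAut ℂ D w)
    (fun t : ℝ => t ^ p) T (hcont.continuousOn) h0 hT.isSelfAdjoint hsa
  have h2 : 0 ≤ u * T * star u := star_right_conjugate_nonneg hT u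
  rw [CFC.rpow_eq_cfc_real hT, CFC.rpow_eq_cfc_real h2]
  exact h1

private theorem smul_rpow' {D : Type} [CStarAlgebra D] [PartialOrder D] [StarOrderedRing D]
    {T : D} (hT : 0 ≤ T) {c p : ℝ} (hc : 0 ≤ c) (hp : 0 ≤ p) :
    (c • T) ^ p = (c ^ p) • T ^ p := by
  have hcont : Continuous (fun t : ℝ => t ^ p) := Real.continuous_rpow_const hp
  have hcT : 0 ≤ c • T := smul_nonneg hc hT
  have hsa := hT.isSelfAdjoint
  rw [CFC.rpow_eq_cfc_real hcT, CFC.rpow_eq_cfc_real hT]
  have h1 : c • T = cfc (fun t : ℝ => c * t) T := by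
    rw [cfc_const_mul c (fun t => t) T (by fun_prop), cfc_id' ℝ T]
  rw [h1, ← cfc_comp' (fun t : ℝ => t ^ p) (fun t : ℝ => c * t) T (hcont.continuousOn)
    (by fun_prop), ← cfc_const_mul (c ^ p) (fun t => t ^ p) T (hcont.continuousOn)]
  apply cfc_congr
  intro t ht
  have ht0 : 0 ≤ t := spectrum_nonneg_of_nonneg hT ht
  exact Real.mul_rpow hc ht0

private theorem trace_rpow {D : Type} [CStarAlgebra D] [PartialOrder D] [StarOrderedRing D]
    {τ : D →ₗ[ℂ] ℂ} (h : IsFTrace τ) {T : D} (hT : 0 ≤ T) (m : ℕ) :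
    (τ (T ^ ((1 : ℝ) / 2 ^ m))).re ≤ (τ T).re ^ ((1 : ℝ) / 2 ^ m) := by
  have hre : 0 ≤ (τ T).re := h.state.re_nonneg_of_nonneg hT
  induction m with
  | zero =>
    simp only [pow_zero, div_one]
    rw [CFC.rpow_one T hT, Real.rpow_one]
  | succ m ih =>
    set Z : D := T ^ ((1 : ℝ) / 2 ^ m) with hZ
    have hZ0 : 0 ≤ Z := CFC.rpow_nonneg
    set W : D := CFC.sqrt Z with hW
    have hW0 : 0 ≤ W := CFC.sqrt_nonneg Z
    have hWW : W * W = Z := CFC.sqrt_mul_sqrt_self Z hZ0
    have hpow : T ^ ((1 : ℝ) / 2 ^ (m + 1)) = W := by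
      rw [hW, CFC.sqrt_eq_rpow, hZ,
        CFC.rpow_rpow_of_exponent_nonneg T _ _ (by positivity) (by norm_num) hT]
      have : (1 : ℝ) / 2 ^ (m + 1) = 1 / 2 ^ m * (1 / 2) := by
        rw [pow_succ]; ring
      rw [this]
    rw [hpow]
    have h1 : (τ W).re ≤ n2 τ W := (Complex.re_le_norm _).trans (h.state.norm_le_n2 W)
    have h2 : n2 τ W = Real.sqrt (τ Z).re := by
      unfold n2
      rw [hW0.isSelfAdjoint.star_eq, hWW]
    have h3 : Real.sqrt (τ Z).re ≤ Real.sqrt ((τ T).re ^ ((1 : ℝ) / 2 ^ m)) :=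
      Real.sqrt_le_sqrt ih
    have h4 : Real.sqrt ((τ T).re ^ ((1 : ℝ) / 2 ^ m)) = (τ T).re ^ ((1 : ℝ) / 2 ^ (m + 1)) := by
      rw [Real.sqrt_eq_rpow, ← Real.rpow_mul hre]
      have : (1 : ℝ) / 2 ^ (m + 1) = 1 / 2 ^ m * (1 / 2) := by
        rw [pow_succ]; ring
      rw [this]
    rw [← h4]
    linarith

theorem pPOW : S_POW := by
  intro D _ _ _ τ hτ E T hEc hTE hT m
  set p : ℝ := (1 : ℝ) / 2 ^ m with hp
  have hp0 : 0 < p := by positivity
  have hp1 : p ≤ 1 := by
    rw [hp]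
    exact div_le_one_of_le₀ (one_le_pow₀ (by norm_num)) (by positivity)
  have hcont : Continuous (fun t : ℝ => t ^ p) := Real.continuous_rpow_const hp0.le
  have hsa := hT.isSelfAdjoint
  have hY0 : (0 : D) ≤ T ^ p := CFC.rpow_nonneg
  have hYc : T ^ p = cfc (fun t : ℝ => t ^ p) T := CFC.rpow_eq_cfc_real hT
  have hspec : ∀ t ∈ spectrum ℝ T, 0 ≤ t ∧ t ≤ ‖T‖ := by
    intro t ht
    refine ⟨spectrum_nonneg_of_nonneg hT ht, ?_⟩
    exact (le_algebraMap_iff_spectrum_le (a := T) (r := ‖T‖)).mp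
      hsa.le_algebraMap_norm_self t ht
  refine ⟨T ^ p, ?_, hY0, ?_, ?_, trace_rpow hτ hT m, ?_⟩
  · rw [hYc]
    have _ : IsClosed (E : Set D) := hEc
    exact cfc_mem _ hTE
  · have h1 : (1 + ‖T‖) • T ^ p = cfc (fun t : ℝ => (1 + ‖T‖) * t ^ p) T := by
      rw [cfc_const_mul (1 + ‖T‖) (fun t => t ^ p) T (hcont.continuousOn), hYc]
    rw [h1]
    have h2 : T = cfc (fun t : ℝ => t) T := (cfc_id' ℝ T).symm
    conv_lhs => rw [h2]
    refine cfc_mono (fun t ht => ?_) (by fun_prop) (by fun_prop)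
    obtain ⟨ht0, ht1⟩ := hspec t ht
    have hn := norm_nonneg T
    rcases le_total t 1 with h | h
    · have h3 : t ≤ t ^ p := by
        rcases eq_or_lt_of_le ht0 with h0 | h0
        · rw [← h0]; exact Real.rpow_nonneg le_rfl _
        · calc t = t ^ (1 : ℝ) := (Real.rpow_one t).symm
            _ ≤ t ^ p := Real.rpow_le_rpow_of_exponent_ge h0 h hp1
      have h4 : 0 ≤ t ^ p := Real.rpow_nonneg ht0 _
      nlinarith
    · have h3 : 1 ≤ t ^ p := Real.one_le_rpow h hp0.le
      nlinarith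
  · rw [hYc]
    refine norm_cfc_le (by positivity) (fun t ht => ?_)
    obtain ⟨ht0, ht1⟩ := hspec t ht
    have h4 : 0 ≤ t ^ p := Real.rpow_nonneg ht0 _
    rw [Real.norm_eq_abs, abs_of_nonneg h4]
    rcases le_total t 1 with h | h
    · have : t ^ p ≤ 1 := Real.rpow_le_one ht0 h hp0.le
      have := norm_nonneg T
      linarith
    · have : t ^ p ≤ t ^ (1 : ℝ) := Real.rpow_le_rpow_of_exponent_le h hp1
      rw [Real.rpow_one] at this
      linarith
  · intro c u hc hu hu' h1 h2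
    set q : ℝ := c ^ p with hq
    have hq1 : 1 ≤ q := Real.one_le_rpow hc hp0.le
    have hq0 : 0 < q := by linarith
    have hc0 : 0 ≤ c := by linarith
    set Y : D := T ^ p with hY
    have hmono : ∀ {a b : D}, a ≤ b → a ^ p ≤ b ^ p := fun hab =>
      CFC.rpow_le_rpow ⟨hp0.le, hp1⟩ hab
    have a1 : u * Y * star u ≤ q • Y := by
      rw [hY, conj_rpow hT hu hu' hp0.le, hq, ← smul_rpow' hT hc0 hp0.le]
      exact hmono h1
    have a2 : star u * Y * u ≤ q • Y := by
      have hv : star (star u) * star u = 1 := by rw [star_star]; exact hu'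
      have hv' : star u * star (star u) = 1 := by rw [star_star]; exact hu
      have := conj_rpow hT hv hv' hp0.le
      rw [star_star] at this
      rw [hY, this, hq, ← smul_rpow' hT hc0 hp0.le]
      exact hmono h2
    have a3 : Y ≤ q • (u * Y * star u) := by
      have h3 := star_right_conjugate_le_conjugate a2 u
      have e1 : u * (star u * Y * u) * star u = Y := by
        calc u * (star u * Y * u) * star u = (u * star u) * Y * (u * star u) := by
              simp only [mul_assoc]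
          _ = Y := by rw [hu', one_mul, mul_one]
      have e2 : u * (q • Y) * star u = q • (u * Y * star u) := by
        rw [mul_smul_comm, smul_mul_assoc]
      rwa [e1, e2] at h3
    have hYn : Y ≤ algebraMap ℝ D ‖Y‖ := hY0.isSelfAdjoint.le_algebraMap_norm_self
    have hYsa := hY0.isSelfAdjoint
    have hsa2 : IsSelfAdjoint (u * Y * star u - Y) := by
      refine IsSelfAdjoint.sub ?_ hYsa
      rw [isSelfAdjoint_iff, star_mul, star_mul, star_star, hYsa.star_eq, mul_assoc]
    have hb : (q - 1) • Y ≤ algebraMap ℝ D ((q - 1) * ‖Y‖) := by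
      have h3 := smul_le_smul_of_nonneg_left hYn (sub_nonneg.mpr hq1)
      rw [Algebra.algebraMap_eq_smul_one, smul_smul, ← Algebra.algebraMap_eq_smul_one] at h3
      exact h3
    have hup : u * Y * star u - Y ≤ (q - 1) • Y := by
      rw [sub_smul, one_smul]
      exact sub_le_sub_right a1 Y
    have hlo : -((q - 1) • Y) ≤ u * Y * star u - Y := by
      have h3 : q⁻¹ • Y ≤ u * Y * star u := by
        have h4 := smul_le_smul_of_nonneg_left a3 (inv_nonneg.mpr hq0.le)
        rwa [smul_smul, inv_mul_cancel₀ hq0.ne', one_smul] at h4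
      have h4 : (2 - q) • Y ≤ q⁻¹ • Y := by
        refine smul_le_smul_of_nonneg_right ?_ hY0
        have : (2 - q) * q ≤ 1 := by nlinarith [sq_nonneg (q - 1)]
        rw [← one_div]
        exact (le_div_iff₀ hq0).mpr this
      have h5 : -((q - 1) • Y) = (2 - q) • Y - Y := by
        rw [sub_smul, sub_smul, one_smul, two_smul]
        abel
      rw [h5]
      exact sub_le_sub_right (h4.trans h3) Y
    refine norm_le_of_two (mul_nonneg (sub_nonneg.mpr hq1) (norm_nonneg _)) hsa2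
      (hup.trans hb) ?_
    exact (neg_le_neg hb).trans hlo

end Pool.Agent.FT
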