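import Pool.Agent.Lib.FT.SpecB

set_option autoImplicit false

noncomputable section

namespace Pool.Agent.FT

/-- constants -/
private theorem consts (r s : ℕ) (ξ : ℝ) (hξ : 0 < ξ) : ∃ (B μ δ : ℝ) (m : ℕ),
    B = 1 + 18 * (s : ℝ) ∧ 0 < μ ∧ B * μ = ξ ^ 2 ∧ 0 < δ ∧
    ((4 * (r : ℝ) + 1) ^ ((1 : ℝ) / 2 ^ m) - 1) * B / μ ≤ ξ ∧
    (2 * ((s : ℝ) * δ ^ 2)) ^ ((1 : ℝ) / 2 ^ m) / μ ≤ ξ := by
  have hr : (0 : ℝ) ≤ r := Nat.cast_nonneg r
  have hs : (0 : ℝ) ≤ s := Nat.cast_nonneg s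
  set B : ℝ := 1 + 18 * (s : ℝ) with hB
  have hB0 : 0 < B := by positivity
  set μ : ℝ := ξ ^ 2 / B with hμ
  have hμ0 : 0 < μ := by positivity
  obtain ⟨m, hm⟩ := pow_unbounded_of_one_lt (4 * (r : ℝ) * B / (μ * ξ)) (one_lt_two)
  set p : ℝ := (1 : ℝ) / 2 ^ m with hp
  have hp0 : 0 < p := by positivity
  have hp1 : p ≤ 1 := by
    rw [hp]
    exact div_le_one_of_le₀ (one_le_pow₀ (by norm_num)) (by positivity)
  set κ : ℝ := (μ * ξ) ^ (2 ^ m) with hκ
  have hκ0 : 0 < κ := by positivity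
  set δ : ℝ := Real.sqrt (κ / (2 * s + 1)) with hδ
  have hδ0 : 0 < δ := Real.sqrt_pos.mpr (by positivity)
  refine ⟨B, μ, δ, m, rfl, hμ0, ?_, hδ0, ?_, ?_⟩
  · rw [hμ]; field_simp
  · have h1 : (4 * (r : ℝ) + 1) ^ p ≤ 1 + p * (4 * r) := by
      have := rpow_one_add_le_one_add_mul_self (s := 4 * (r : ℝ)) (by linarith) hp0.le hp1
      rwa [add_comm (1 : ℝ) (4 * (r : ℝ))] at this
    have h2 : ((4 * (r : ℝ) + 1) ^ p - 1) * B / μ ≤ p * (4 * r) * B / μ := by
      apply div_le_div_of_nonneg_right _ hμ0.le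
      apply mul_le_mul_of_nonneg_right _ hB0.le
      linarith
    refine h2.trans ?_
    have h3 : 4 * (r : ℝ) * B < 2 ^ m * (μ * ξ) := by
      rwa [div_lt_iff₀ (by positivity)] at hm
    rw [hp, div_le_iff₀ hμ0, one_div, mul_assoc, inv_mul_le_iff₀ (by positivity)]
    calc 4 * (r : ℝ) * B ≤ 2 ^ m * (μ * ξ) := h3.le
      _ = 2 ^ m * (ξ * μ) := by ring
  · rw [div_le_iff₀ hμ0]
    have h1 : 2 * ((s : ℝ) * δ ^ 2) ≤ κ := by
      rw [hδ, Real.sq_sqrt (by positivity)]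
      have : 2 * ((s : ℝ) * (κ / (2 * s + 1))) = κ * ((2 * s) / (2 * s + 1)) := by ring
      rw [this]
      have h2 : (2 * (s : ℝ)) / (2 * s + 1) ≤ 1 := by
        rw [div_le_one (by positivity)]; linarith
      calc κ * ((2 * s) / (2 * s + 1)) ≤ κ * 1 := mul_le_mul_of_nonneg_left h2 hκ0.le
        _ = κ := mul_one κ
    have h2 : (2 * ((s : ℝ) * δ ^ 2)) ^ p ≤ κ ^ p :=
      Real.rpow_le_rpow (by positivity) h1 hp0.le
    have h3 : κ ^ p = μ * ξ := by
      rw [hκ, ← Real.rpow_natCast, ← Real.rpow_mul (by positivity), hp]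
      push_cast
      rw [mul_one_div_cancel (by positivity), Real.rpow_one]
    rw [h3] at h2
    linarith

private theorem norm_unitary {D : Type} [CStarAlgebra D] {τ : D →ₗ[ℂ] ℂ} (h : IsFTrace τ) {u : D}
    (hu : star u * u = 1) : ‖u‖ = 1 := by
  have : Nontrivial D := by
    refine ⟨1, 0, fun h0 => ?_⟩
    have h1 := h.state.1
    rw [h0, map_zero] at h1
    exact zero_ne_one h1
  have h1 : ‖u‖ * ‖u‖ = 1 := by
    rw [← CStarRing.norm_star_mul_self, hu, CStarRing.norm_one]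
  nlinarith [norm_nonneg u]

/-- the unitary with real part `z` -/
private theorem exists_unitary {D : Type} [CStarAlgebra D]
    (E : StarSubalgebra ℂ D) (hE : IsClosed (E : Set D)) {z : D} (hz : z ∈ E) (hsa : star z = z)
    (hn : ‖z‖ ≤ 1) :
    ∃ w ∈ E, star w * w = 1 ∧ w * star w = 1 ∧ w + star w = (2 : ℂ) • z := by
  let _ : PartialOrder D := CStarAlgebra.spectralOrder D
  have _ : StarOrderedRing D := CStarAlgebra.spectralOrderedRing D
  have hz' : IsSelfAdjoint z := hsa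
  have hspec : ∀ t ∈ spectrum ℝ z, t ^ 2 ≤ 1 := by
    intro t ht
    have h1 : t ≤ ‖z‖ := (le_algebraMap_iff_spectrum_le (a := z) (r := ‖z‖)).mp
      hz'.le_algebraMap_norm_self t ht
    have h2 : -‖z‖ ≤ t := (algebraMap_le_iff_le_spectrum (a := z) (r := -‖z‖)).mp
      (by simpa using hz'.neg_algebraMap_norm_le_self) t ht
    nlinarith
  have _ : IsClosed (E : Set D) := hE
  set f : ℝ → ℝ := fun t => Real.sqrt (1 - t ^ 2) with hf
  have hfc : Continuous f := by fun_prop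
  set y : D := cfc f z with hy
  have hysa : star y = y := (cfc_predicate f z : IsSelfAdjoint y)
  have hyE : y ∈ E := cfc_mem f hz
  have hid : cfc (fun t : ℝ => t) z = z := cfc_id' ℝ z
  have hcomm : z * y = y * z := by
    have h1 : z * y = cfc (fun t : ℝ => t * f t) z := by
      rw [cfc_mul (fun t : ℝ => t) f z (by fun_prop) hfc.continuousOn, hid]
    have h2 : y * z = cfc (fun t : ℝ => f t * t) z := by
      rw [cfc_mul f (fun t : ℝ => t) z hfc.continuousOn (by fun_prop), hid]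
    rw [h1, h2]
    apply cfc_congr
    intro t _
    exact mul_comm _ _
  have hsq : z * z + y * y = 1 := by
    have h1 : z * z = cfc (fun t : ℝ => t * t) z := by
      rw [cfc_mul (fun t : ℝ => t) (fun t : ℝ => t) z (by fun_prop) (by fun_prop), hid]
    have h2 : y * y = cfc (fun t : ℝ => f t * f t) z := by
      rw [cfc_mul f f z hfc.continuousOn hfc.continuousOn]
    rw [h1, h2, ← cfc_add z (fun t : ℝ => t * t) (fun t : ℝ => f t * f t) (by fun_prop)
      (by fun_prop), ← cfc_const_one ℝ z]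
    apply cfc_congr
    intro t ht
    change t * t + Real.sqrt (1 - t ^ 2) * Real.sqrt (1 - t ^ 2) = 1
    rw [Real.mul_self_sqrt (by linarith [hspec t ht])]
    ring
  have hst : star (z + Complex.I • y) = z - Complex.I • y := by
    rw [star_add, star_smul, hsa, hysa, Complex.star_def, Complex.conj_I, neg_smul,
      sub_eq_add_neg]
  refine ⟨z + Complex.I • y, ?_, ?_, ?_, ?_⟩
  · exact add_mem hz (SMulMemClass.smul_mem _ hyE)
  · rw [hst, sub_mul, mul_add, mul_add, smul_mul_assoc, smul_mul_assoc, mul_smul_comm,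
      mul_smul_comm, smul_smul, Complex.I_mul_I, hcomm, neg_one_smul]
    calc z * z + Complex.I • (y * z) - (Complex.I • (y * z) + -(y * y)) = z * z + y * y := by abel
      _ = 1 := hsq
  · rw [hst, mul_sub, add_mul, add_mul, smul_mul_assoc, smul_mul_assoc, mul_smul_comm,
      mul_smul_comm, smul_smul, Complex.I_mul_I, hcomm, neg_one_smul]
    calc z * z + Complex.I • (y * z) - (Complex.I • (y * z) + -(y * y)) = z * z + y * y := by abel
      _ = 1 := hsq
  · rw [hst, two_smul]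
    abel

theorem pQ (hSER : S_SER) (hPOW : S_POW) (hRES : S_RES) : S_Q := by
  intro r s ξ hξ
  obtain ⟨B, μ, δ, m, hB, hμ, hBμ, hδ, hc1, hc2⟩ := consts r s ξ hξ
  refine ⟨δ, hδ, ?_⟩
  intro D _ _ _ τ hτ E z X hEc hzE hzsa hzn hXE hXsa hXn hXδ
  have hs : (0 : ℝ) ≤ s := Nat.cast_nonneg s
  have hr : (0 : ℝ) ≤ r := Nat.cast_nonneg r
  choose w hwE hw1 hw2 hw3 using fun i => exists_unitary E hEc (hzE i) (hzsa i) (hzn i)
  set x₀ : D := ∑ k, X k * X k with hx₀
  have hXX : ∀ k, 0 ≤ X k * X k := fun k => by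
    have := star_mul_self_nonneg (X k)
    rwa [hXsa k] at this
  have hx₀0 : 0 ≤ x₀ := Finset.sum_nonneg fun k _ => hXX k
  have hx₀E : x₀ ∈ E := sum_mem fun k _ => mul_mem (hXE k) (hXE k)
  have hx₀n : ‖x₀‖ ≤ 9 * (s : ℝ) := by
    calc ‖x₀‖ ≤ ∑ k : Fin s, ‖X k * X k‖ := norm_sum_le _ _
      _ ≤ ∑ _k : Fin s, (9 : ℝ) := by
        refine Finset.sum_le_sum fun k _ => ?_
        calc ‖X k * X k‖ ≤ ‖X k‖ * ‖X k‖ := norm_mul_le _ _
          _ ≤ 3 * 3 := mul_le_mul (hXn k) (hXn k) (norm_nonneg _) (by norm_num)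
          _ = 9 := by norm_num
      _ = 9 * (s : ℝ) := by
        rw [Finset.sum_const, Finset.card_univ, Fintype.card_fin, nsmul_eq_mul]; ring
  have hx₀τ : (τ x₀).re ≤ s * δ ^ 2 := by
    rw [hx₀, map_sum, Complex.re_sum]
    calc ∑ k : Fin s, (τ (X k * X k)).re ≤ ∑ _k : Fin s, δ ^ 2 := by
          refine Finset.sum_le_sum fun k _ => ?_
          have h1 : (τ (X k * X k)).re = n2 τ (X k) ^ 2 := by
            rw [hτ.state.n2_sq, hXsa k]
          rw [h1]
          exact pow_le_pow_left₀ (n2_nonneg _ _) (hXδ k) 2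
      _ = s * δ ^ 2 := by
        rw [Finset.sum_const, Finset.card_univ, Fintype.card_fin, nsmul_eq_mul]
  obtain ⟨T, hTE, hxT, hTn, hTτ, hT1, hT2⟩ := hSER D τ hτ r w E x₀ hEc hwE hw1 hw2 hx₀E hx₀0
  have hT0 : 0 ≤ T := hx₀0.trans hxT
  have hTn' : 1 + ‖T‖ ≤ B := by rw [hB]; linarith
  have hTτ' : (τ T).re ≤ 2 * ((s : ℝ) * δ ^ 2) := by linarith
  obtain ⟨Y, hYE, hY0, hTY, hYn, hYτ, hYc⟩ := hPOW D τ hτ E T hEc hTE hT0 m
  have hYn' : ‖Y‖ ≤ B := hYn.trans hTn'
  obtain ⟨α, hαE, hα0, hα1, hατ, hαc, hαX⟩ := hRES D τ hτ E Y μ hEc hYE hY0 hμ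
  have hc : (1 : ℝ) ≤ 4 * (r : ℝ) + 1 := by linarith
  refine ⟨α, hαE, hα0, hα1, ?_, ?_, ?_⟩
  · refine hατ.trans (le_trans ?_ hc2)
    apply div_le_div_of_nonneg_right _ hμ.le
    refine hYτ.trans ?_
    exact Real.rpow_le_rpow (hτ.state.re_nonneg_of_nonneg hT0) hTτ' (by positivity)
  · intro i
    have h1 : ‖w i * α * star (w i) - α‖ ≤ ξ := by
      refine (hαc (w i) (hw1 i) (hw2 i)).trans (le_trans ?_ hc1)
      apply div_le_div_of_nonneg_right _ hμ.le
      have h2 := hYc (4 * (r : ℝ) + 1) (w i) hc (hw1 i) (hw2 i) (hT1 i) (hT2 i)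
      refine h2.trans ?_
      apply mul_le_mul_of_nonneg_left hYn'
      have : (1 : ℝ) ≤ (4 * (r : ℝ) + 1) ^ ((1 : ℝ) / 2 ^ m) :=
        Real.one_le_rpow hc (by positivity)
      linarith
    have hwn : ‖w i‖ = 1 := norm_unitary hτ (hw1 i)
    have h2 : ‖α * w i - w i * α‖ ≤ ξ := by
      have e : w i * α - α * w i = (w i * α * star (w i) - α) * w i := by
        rw [sub_mul, mul_assoc (w i * α), hw1 i, mul_one]
      rw [← norm_neg, neg_sub, e]
      calc ‖(w i * α * star (w i) - α) * w i‖ ≤ ‖w i * α * star (w i) - α‖ * ‖w i‖ :=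
            norm_mul_le _ _
        _ ≤ ξ := by rw [hwn, mul_one]; exact h1
    have h3 : ‖α * star (w i) - star (w i) * α‖ ≤ ξ := by
      have e : α * star (w i) - star (w i) * α = star (w i * α - α * w i) := by
        rw [star_sub, star_mul, star_mul, hα0.isSelfAdjoint.star_eq]
      rw [e, norm_star, ← norm_neg, neg_sub]
      exact h2
    have h4 : (2 : ℂ) • (α * z i - z i * α)
        = (α * w i - w i * α) + (α * star (w i) - star (w i) * α) := by
      rw [smul_sub, ← mul_smul_comm, ← smul_mul_assoc, ← hw3 i, mul_add, add_mul]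
      abel
    have h5 : 2 * ‖α * z i - z i * α‖ ≤ 2 * ξ := by
      have e : 2 * ‖α * z i - z i * α‖ = ‖(2 : ℂ) • (α * z i - z i * α)‖ := by
        rw [norm_smul]; simp
      rw [e, h4]
      calc _ ≤ ‖α * w i - w i * α‖ + ‖α * star (w i) - star (w i) * α‖ := norm_add_le _ _
        _ ≤ 2 * ξ := by linarith
    linarith
  · intro k
    have hB0 : 0 ≤ B := by rw [hB]; positivity
    have h1 : X k * X k ≤ B • Y := by
      have a1 : X k * X k ≤ x₀ := Finset.single_le_sum (f := fun k => X k * X k)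
        (fun j _ => hXX j) (Finset.mem_univ k)
      have a2 : (1 + ‖T‖) • Y ≤ B • Y := smul_le_smul_of_nonneg_right hTn' hY0
      exact a1.trans (hxT.trans (hTY.trans a2))
    have h2 := hαX B (X k) hB0 (hXsa k) h1
    rw [hBμ] at h2
    exact (sq_le_sq₀ (norm_nonneg _) hξ.le).mp h2

end Pool.Agent.FT
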