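import Pool.Agent.Lib.FT.SpecB

set_option autoImplicit false

noncomputable section

namespace Pool.Agent.FT

private theorem norm_conj_le {D : Type} [CStarAlgebra D] {τ : D →ₗ[ℂ] ℂ} (h : IsFTrace τ) {u : D}
    (hu : star u * u = 1) (x : D) : ‖u * x * star u‖ ≤ ‖x‖ := by
  have : Nontrivial D := by
    refine ⟨1, 0, fun h0 => ?_⟩
    have h1 := h.state.1
    rw [h0, map_zero] at h1
    exact zero_ne_one h1
  have h1 : ‖u‖ * ‖u‖ = 1 := by
    rw [← CStarRing.norm_star_mul_self, hu, CStarRing.norm_one]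
  calc ‖u * x * star u‖ ≤ ‖u * x‖ * ‖star u‖ := norm_mul_le _ _
    _ ≤ (‖u‖ * ‖x‖) * ‖u‖ := by
      rw [norm_star]; exact mul_le_mul_of_nonneg_right (norm_mul_le _ _) (norm_nonneg _)
    _ = (‖u‖ * ‖u‖) * ‖x‖ := by ring
    _ = ‖x‖ := by rw [h1, one_mul]

theorem pRES : S_RES := by
  intro D _ _ _ τ hτ E Y μ hEc hYE hY hμ
  have hsa : IsSelfAdjoint Y := hY.isSelfAdjoint
  have hspec : ∀ t ∈ spectrum ℝ Y, 0 ≤ t := fun t ht => spectrum_nonneg_of_nonneg hY ht
  have hne : ∀ t ∈ spectrum ℝ Y, μ + t ≠ 0 := fun t ht => by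
    have := hspec t ht
    positivity
  have hcinv : ContinuousOn (fun t : ℝ => (μ + t)⁻¹) (spectrum ℝ Y) :=
    ContinuousOn.inv₀ (by fun_prop) hne
  have hcα : ContinuousOn (fun t : ℝ => t / (μ + t)) (spectrum ℝ Y) :=
    ContinuousOn.div (by fun_prop) (by fun_prop) hne
  set α : D := cfc (fun t : ℝ => t / (μ + t)) Y with hα
  set R : D := cfc (fun t : ℝ => (μ + t)⁻¹) Y with hR
  have hαsa : IsSelfAdjoint α := cfc_predicate _ Y
  have hαR : α = 1 - μ • R := by
    rw [hα, hR, ← cfc_const_mul μ (fun t : ℝ => (μ + t)⁻¹) Y hcinv, ← cfc_const_one ℝ Y,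
      ← cfc_sub (fun _ => (1 : ℝ)) (fun t : ℝ => μ * (μ + t)⁻¹) Y (by fun_prop)
        (by fun_prop)]
    apply cfc_congr
    intro t ht
    have h1 := hne t ht
    change t / (μ + t) = 1 - μ * (μ + t)⁻¹
    field_simp
    ring
  have hRl : R * (μ • 1 + Y) = 1 := by
    have h1 : (μ • (1 : D) + Y) = cfc (fun t : ℝ => μ + t) Y := by
      rw [cfc_const_add μ (fun t => t) Y (by fun_prop), cfc_id' ℝ Y,
        Algebra.algebraMap_eq_smul_one]
    rw [h1, hR, ← cfc_mul (fun t : ℝ => (μ + t)⁻¹) (fun t : ℝ => μ + t) Y hcinv (by fun_prop),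
      ← cfc_const_one ℝ Y]
    apply cfc_congr
    intro t ht
    exact inv_mul_cancel₀ (hne t ht)
  have hRr : (μ • 1 + Y) * R = 1 := by
    have h1 : (μ • (1 : D) + Y) = cfc (fun t : ℝ => μ + t) Y := by
      rw [cfc_const_add μ (fun t => t) Y (by fun_prop), cfc_id' ℝ Y,
        Algebra.algebraMap_eq_smul_one]
    rw [h1, hR, ← cfc_mul (fun t : ℝ => μ + t) (fun t : ℝ => (μ + t)⁻¹) Y (by fun_prop) hcinv,
      ← cfc_const_one ℝ Y]
    apply cfc_congr
    intro t ht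
    exact mul_inv_cancel₀ (hne t ht)
  have hRn : ‖R‖ ≤ μ⁻¹ := by
    refine norm_cfc_le (by positivity) (fun t ht => ?_)
    have h0 := hspec t ht
    rw [Real.norm_eq_abs, abs_of_nonneg (by positivity)]
    exact inv_anti₀ hμ (by linarith)
  have hα0 : 0 ≤ α := cfc_nonneg (fun t ht => by
    have h0 := hspec t ht
    positivity)
  have hα1 : α ≤ 1 := by
    refine cfc_le_one _ _ (fun t ht => ?_)
    have h0 := hspec t ht
    rw [div_le_one (by positivity)]
    linarith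
  have hαY : α ≤ μ⁻¹ • Y := by
    have h1 : μ⁻¹ • Y = cfc (fun t : ℝ => μ⁻¹ * t) Y := by
      rw [cfc_const_mul μ⁻¹ (fun t => t) Y (by fun_prop), cfc_id' ℝ Y]
    rw [h1]
    refine cfc_mono (fun t ht => ?_) hcα (by fun_prop)
    have h0 := hspec t ht
    rw [div_eq_mul_inv, mul_comm]
    exact mul_le_mul_of_nonneg_right (inv_anti₀ hμ (by linarith)) h0
  refine ⟨α, ?_, hα0, hα1, ?_, ?_, ?_⟩
  · have _ : IsClosed (E : Set D) := hEc
    exact cfc_mem _ hYE
  · have h1 := hτ.state.re_mono hαY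
    have h2 : μ⁻¹ • Y = ((μ⁻¹ : ℝ) : ℂ) • Y := by rw [Complex.coe_smul]
    rw [h2, map_smul, smul_eq_mul, Complex.re_ofReal_mul] at h1
    rw [div_eq_mul_inv, mul_comm]
    exact h1
  · intro u hu hu'
    set R' : D := u * R * star u with hR'
    set Y' : D := u * Y * star u with hY'
    have hR'l : R' * (μ • 1 + Y') = 1 := by
      have e1 : μ • (1 : D) + Y' = u * (μ • 1 + Y) * star u := by
        rw [mul_add, add_mul, mul_smul_comm, mul_one, smul_mul_assoc, hu']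
      rw [e1, hR']
      calc u * R * star u * (u * (μ • 1 + Y) * star u)
          = u * R * (star u * u) * (μ • 1 + Y) * star u := by simp only [mul_assoc]
        _ = u * (R * (μ • 1 + Y)) * star u := by rw [hu, mul_one]; simp only [mul_assoc]
        _ = 1 := by rw [hRl, mul_one, hu']
    have e2 : u * α * star u = 1 - μ • R' := by
      rw [hαR, mul_sub, sub_mul, mul_one, hu', mul_smul_comm, smul_mul_assoc]
    have e3 : R - R' = R' * (Y' - Y) * R := by
      have a1 : R' * (Y' - Y) * R = (R' * (μ • 1 + Y')) * R - R' * ((μ • 1 + Y) * R) := by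
        rw [← mul_assoc R' (μ • 1 + Y) R, ← sub_mul, ← mul_sub]
        congr 2
        abel
      rw [a1, hR'l, hRr, one_mul, mul_one]
    have e4 : u * α * star u - α = μ • (R' * (Y' - Y) * R) := by
      rw [← e3, e2, hαR, smul_sub]
      abel
    have hR'n : ‖R'‖ ≤ μ⁻¹ := (norm_conj_le hτ hu R).trans hRn
    rw [e4, norm_smul, Real.norm_eq_abs, abs_of_pos hμ]
    have b1 : ‖R' * (Y' - Y) * R‖ ≤ μ⁻¹ * ‖Y' - Y‖ * μ⁻¹ := by
      calc ‖R' * (Y' - Y) * R‖ ≤ ‖R' * (Y' - Y)‖ * ‖R‖ := norm_mul_le _ _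
        _ ≤ (‖R'‖ * ‖Y' - Y‖) * ‖R‖ := mul_le_mul_of_nonneg_right (norm_mul_le _ _)
          (norm_nonneg _)
        _ ≤ (μ⁻¹ * ‖Y' - Y‖) * μ⁻¹ := by
          refine mul_le_mul (mul_le_mul_of_nonneg_right hR'n (norm_nonneg _)) hRn
            (norm_nonneg _) (by positivity)
    calc μ * ‖R' * (Y' - Y) * R‖ ≤ μ * (μ⁻¹ * ‖Y' - Y‖ * μ⁻¹) :=
          mul_le_mul_of_nonneg_left b1 hμ.le
      _ = ‖Y' - Y‖ / μ := by field_simp
  · intro C X hC hX hXX
    have hs1 : star (1 - α) = 1 - α := by rw [star_sub, star_one, hαsa.star_eq]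
    have e1 : ‖(1 - α) * X‖ ^ 2 = ‖(1 - α) * (X * X) * (1 - α)‖ := by
      rw [sq, ← CStarRing.norm_self_mul_star, star_mul, hX, hs1]
      simp only [mul_assoc]
    have h1 : 0 ≤ (1 - α) * (X * X) * (1 - α) := by
      have h0 : (1 - α) * (X * X) * (1 - α) = ((1 - α) * X) * star ((1 - α) * X) := by
        rw [star_mul, hX, hs1]; simp only [mul_assoc]
      rw [h0]; exact mul_star_self_nonneg _
    have h2 : (1 - α) * (X * X) * (1 - α) ≤ (1 - α) * (C • Y) * (1 - α) := by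
      have := star_right_conjugate_le_conjugate hXX (1 - α)
      rwa [hs1] at this
    have h3 : (1 - α) * (C • Y) * (1 - α) = C • ((1 - α) * Y * (1 - α)) := by
      rw [mul_smul_comm, smul_mul_assoc]
    have h4 : (1 - α) = cfc (fun t : ℝ => μ * (μ + t)⁻¹) Y := by
      rw [cfc_const_mul μ (fun t : ℝ => (μ + t)⁻¹) Y hcinv, ← hR, hαR]
      abel
    have hc4 : ContinuousOn (fun t : ℝ => μ * (μ + t)⁻¹) (spectrum ℝ Y) := by fun_prop
    have h5 : (1 - α) * Y * (1 - α)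
        = cfc (fun t : ℝ => μ * (μ + t)⁻¹ * t * (μ * (μ + t)⁻¹)) Y := by
      rw [cfc_mul (fun t : ℝ => μ * (μ + t)⁻¹ * t) (fun t : ℝ => μ * (μ + t)⁻¹) Y
        (by fun_prop) hc4,
        cfc_mul (fun t : ℝ => μ * (μ + t)⁻¹) (fun t : ℝ => t) Y hc4 (by fun_prop),
        cfc_id' ℝ Y, ← h4]
    have h6 : ‖(1 - α) * Y * (1 - α)‖ ≤ μ := by
      rw [h5]
      refine norm_cfc_le hμ.le (fun t ht => ?_)
      have h0 := hspec t ht
      have hp : 0 < μ + t := by positivity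
      rw [Real.norm_eq_abs, abs_of_nonneg (by positivity)]
      have e5 : μ * (μ + t)⁻¹ * t * (μ * (μ + t)⁻¹) = μ * (μ * t / (μ + t) ^ 2) := by
        field_simp
      rw [e5]
      have e6 : μ * t / (μ + t) ^ 2 ≤ 1 := by
        rw [div_le_one (by positivity)]
        nlinarith
      calc μ * (μ * t / (μ + t) ^ 2) ≤ μ * 1 := mul_le_mul_of_nonneg_left e6 hμ.le
        _ = μ := mul_one μ
    rw [e1]
    calc ‖(1 - α) * (X * X) * (1 - α)‖ ≤ ‖(1 - α) * (C • Y) * (1 - α)‖ :=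
          CStarAlgebra.norm_le_norm_of_nonneg_of_le h1 h2
      _ = C * ‖(1 - α) * Y * (1 - α)‖ := by
        rw [h3, norm_smul, Real.norm_eq_abs, abs_of_nonneg hC]
      _ ≤ C * μ := mul_le_mul_of_nonneg_left h6 hC

end Pool.Agent.FT
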