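import Pool.Agent.Lib.FT.SpecB

set_option autoImplicit false

noncomputable section

namespace Pool.Agent.FT

private def Th {D : Type} [CStarAlgebra D] {r : ℕ} (u : Fin r → D) (x : D) : D :=
  ∑ i, (u i * x * star (u i) + star (u i) * x * u i)

private def ss {D : Type} [CStarAlgebra D] {r : ℕ} (u : Fin r → D) (θ : ℝ) (x : D) : ℕ → D
  | 0 => x
  | m + 1 => θ • Th u (ss u θ x m)

private theorem norm_unitary {D : Type} [CStarAlgebra D] {τ : D →ₗ[ℂ] ℂ} (h : IsFTrace τ) {u : D}
    (hu : star u * u = 1) : ‖u‖ ≤ 1 := by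
  have : Nontrivial D := by
    refine ⟨1, 0, fun h0 => ?_⟩
    have h1 := h.state.1
    rw [h0, map_zero] at h1
    exact zero_ne_one h1
  have h1 : ‖u‖ * ‖u‖ = 1 := by
    rw [← CStarRing.norm_star_mul_self, hu, CStarRing.norm_one]
  nlinarith [norm_nonneg u]

private theorem Th_add {D : Type} [CStarAlgebra D] {r : ℕ} (u : Fin r → D) (x y : D) :
    Th u (x + y) = Th u x + Th u y := by
  unfold Th
  rw [← Finset.sum_add_distrib]
  refine Finset.sum_congr rfl fun i _ => ?_
  simp only [mul_add, add_mul]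
  abel

private theorem Th_cont {D : Type} [CStarAlgebra D] {r : ℕ} (u : Fin r → D) :
    Continuous (Th u) := by
  unfold Th
  fun_prop

private theorem Th_norm {D : Type} [CStarAlgebra D] {r : ℕ} (u : Fin r → D)
    (hu : ∀ i, ‖u i‖ ≤ 1) (x : D) : ‖Th u x‖ ≤ 2 * (r : ℝ) * ‖x‖ := by
  have h0 : ∀ i, ‖u i * x * star (u i) + star (u i) * x * u i‖ ≤ 2 * ‖x‖ := by
    intro i
    have h1 : ‖u i * x * star (u i)‖ ≤ ‖x‖ := by
      calc ‖u i * x * star (u i)‖ ≤ ‖u i * x‖ * ‖star (u i)‖ := norm_mul_le _ _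
        _ ≤ (‖u i‖ * ‖x‖) * ‖u i‖ := by
          rw [norm_star]; exact mul_le_mul_of_nonneg_right (norm_mul_le _ _) (norm_nonneg _)
        _ ≤ (1 * ‖x‖) * 1 := by
          refine mul_le_mul (mul_le_mul_of_nonneg_right (hu i) (norm_nonneg _)) (hu i)
            (norm_nonneg _) (by positivity)
        _ = ‖x‖ := by ring
    have h2 : ‖star (u i) * x * u i‖ ≤ ‖x‖ := by
      calc ‖star (u i) * x * u i‖ ≤ ‖star (u i) * x‖ * ‖u i‖ := norm_mul_le _ _
        _ ≤ (‖u i‖ * ‖x‖) * ‖u i‖ := by
          refine mul_le_mul_of_nonneg_right ?_ (norm_nonneg _)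
          have := norm_mul_le (star (u i)) x
          rwa [norm_star] at this
        _ ≤ (1 * ‖x‖) * 1 := by
          refine mul_le_mul (mul_le_mul_of_nonneg_right (hu i) (norm_nonneg _)) (hu i)
            (norm_nonneg _) (by positivity)
        _ = ‖x‖ := by ring
    calc _ ≤ ‖u i * x * star (u i)‖ + ‖star (u i) * x * u i‖ := norm_add_le _ _
      _ ≤ 2 * ‖x‖ := by linarith
  calc ‖Th u x‖ ≤ ∑ i : Fin r, ‖u i * x * star (u i) + star (u i) * x * u i‖ :=
        norm_sum_le _ _
    _ ≤ ∑ _i : Fin r, 2 * ‖x‖ := Finset.sum_le_sum fun i _ => h0 i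
    _ = 2 * (r : ℝ) * ‖x‖ := by
      rw [Finset.sum_const, Finset.card_univ, Fintype.card_fin, nsmul_eq_mul]; ring

private theorem Th_nonneg {D : Type} [CStarAlgebra D] [PartialOrder D] [StarOrderedRing D] {r : ℕ}
    (u : Fin r → D) {x : D} (hx : 0 ≤ x) : 0 ≤ Th u x :=
  Finset.sum_nonneg fun i _ => add_nonneg (star_right_conjugate_nonneg hx (u i))
    (star_left_conjugate_nonneg hx (u i))

private theorem Th_trace {D : Type} [CStarAlgebra D] {τ : D →ₗ[ℂ] ℂ} (h : IsFTrace τ) {r : ℕ}
    (u : Fin r → D) (hu : ∀ i, star (u i) * u i = 1) (hu' : ∀ i, u i * star (u i) = 1) (x : D) :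
    (τ (Th u x)).re = 2 * (r : ℝ) * (τ x).re := by
  unfold Th
  rw [map_sum, Complex.re_sum]
  have : ∀ i : Fin r, (τ (u i * x * star (u i) + star (u i) * x * u i)).re = 2 * (τ x).re := by
    intro i
    have h1 : τ (u i * x * star (u i)) = τ x := h.conj (hu i) x
    have h2 : τ (star (u i) * x * u i) = τ x := by
      have := h.conj (u := star (u i)) (by rw [star_star]; exact hu' i) x
      rwa [star_star] at this
    rw [map_add, h1, h2, Complex.add_re]
    ring
  rw [Finset.sum_congr rfl fun i _ => this i, Finset.sum_const, Finset.card_univ,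
    Fintype.card_fin, nsmul_eq_mul]
  ring

theorem pSER : S_SER := by
  intro D _ _ _ τ hτ r u E x₀ hEc huE hu hu' hx₀E hx₀
  set θ : ℝ := 1 / (4 * (r : ℝ) + 1) with hθ
  have hr : (0 : ℝ) ≤ r := Nat.cast_nonneg r
  have hθ0 : 0 < θ := by positivity
  have hθ2 : θ * (2 * (r : ℝ)) ≤ 1 / 2 := by
    rw [hθ, div_mul_eq_mul_div, one_mul, div_le_div_iff₀ (by positivity) (by norm_num)]
    linarith
  have hun : ∀ i, ‖u i‖ ≤ 1 := fun i => norm_unitary hτ (hu i)
  set s : ℕ → D := ss u θ x₀ with hs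
  have s0 : s 0 = x₀ := rfl
  have s1 : ∀ m, s (m + 1) = θ • Th u (s m) := fun m => rfl
  have snn : ∀ m, 0 ≤ s m := by
    intro m
    induction m with
    | zero => exact hx₀
    | succ m ih => rw [s1]; exact smul_nonneg hθ0.le (Th_nonneg u ih)
  have sE : ∀ m, s m ∈ E := by
    intro m
    induction m with
    | zero => exact hx₀E
    | succ m ih =>
      rw [s1]
      have h1 : Th u (s m) ∈ E := by
        refine sum_mem fun i _ => add_mem ?_ ?_
        · exact mul_mem (mul_mem (huE i) ih) (star_mem (huE i))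
        · exact mul_mem (mul_mem (star_mem (huE i)) ih) (huE i)
      have h2 : θ • Th u (s m) = ((θ : ℝ) : ℂ) • Th u (s m) := by rw [Complex.coe_smul]
      rw [h2]
      exact SMulMemClass.smul_mem _ h1
  have snorm : ∀ m, ‖s m‖ ≤ ‖x₀‖ * (1 / 2) ^ m := by
    intro m
    induction m with
    | zero => rw [s0]; simp
    | succ m ih =>
      rw [s1, norm_smul, Real.norm_eq_abs, abs_of_pos hθ0]
      calc θ * ‖Th u (s m)‖ ≤ θ * (2 * (r : ℝ) * ‖s m‖) :=
            mul_le_mul_of_nonneg_left (Th_norm u hun _) hθ0.le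
        _ = (θ * (2 * (r : ℝ))) * ‖s m‖ := by ring
        _ ≤ (1 / 2) * ‖s m‖ := mul_le_mul_of_nonneg_right hθ2 (norm_nonneg _)
        _ ≤ (1 / 2) * (‖x₀‖ * (1 / 2) ^ m) := by linarith
        _ = ‖x₀‖ * (1 / 2) ^ (m + 1) := by ring
  have strace : ∀ m, (τ (s m)).re ≤ (τ x₀).re * (1 / 2) ^ m := by
    intro m
    induction m with
    | zero => rw [s0]; simp
    | succ m ih =>
      have h1 : (τ (s (m + 1))).re = θ * (2 * (r : ℝ)) * (τ (s m)).re := by
        have h2 : θ • Th u (s m) = ((θ : ℝ) : ℂ) • Th u (s m) := by rw [Complex.coe_smul]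
        rw [s1, h2, map_smul, smul_eq_mul, Complex.re_ofReal_mul, Th_trace hτ u hu hu']
        ring
      rw [h1]
      have h3 : 0 ≤ (τ (s m)).re := hτ.state.re_nonneg_of_nonneg (snn m)
      calc θ * (2 * (r : ℝ)) * (τ (s m)).re ≤ (1 / 2) * (τ (s m)).re :=
            mul_le_mul_of_nonneg_right hθ2 h3
        _ ≤ (1 / 2) * ((τ x₀).re * (1 / 2) ^ m) := by linarith
        _ = (τ x₀).re * (1 / 2) ^ (m + 1) := by ring
  have hgeo : HasSum (fun m : ℕ => ‖x₀‖ * (1 / 2) ^ m) (‖x₀‖ * 2) :=
    hasSum_geometric_two.mul_left ‖x₀‖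
  have hsum : Summable s := Summable.of_norm_bounded hgeo.summable snorm
  set T : D := ∑' m, s m with hT
  have hTs : HasSum s T := hsum.hasSum
  have hTn : ‖T‖ ≤ 2 * ‖x₀‖ := by
    have := tsum_of_norm_bounded hgeo snorm
    linarith
  have hTE : T ∈ E := by
    refine hEc.mem_of_tendsto hTs.tendsto_sum_nat (Filter.Eventually.of_forall fun n => ?_)
    exact sum_mem fun i _ => sE i
  have hTt : (τ T).re ≤ 2 * (τ x₀).re := by
    have h1 : HasSum (fun m => τ (s m)) (τ T) := hTs.map τ hτ.state.continuous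
    have h2 : HasSum (fun m => (τ (s m)).re) (τ T).re := Complex.hasSum_re h1
    have h3 : HasSum (fun m : ℕ => (τ x₀).re * (1 / 2) ^ m) ((τ x₀).re * 2) :=
      hasSum_geometric_two.mul_left _
    have := hasSum_le strace h2 h3
    linarith
  -- the tail
  have hshift : HasSum (fun m => s (m + 1)) (T - x₀) := by
    have := (hasSum_nat_add_iff' 1).mpr hTs
    simpa [s0] using this
  have hxT : x₀ ≤ T := by
    have h1 : (0 : D) ≤ T - x₀ := by
      have hcl : IsClosed {a : D | 0 ≤ a} := CStarAlgebra.isClosed_nonneg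
      refine hcl.mem_of_tendsto hshift.tendsto_sum_nat (Filter.Eventually.of_forall fun n => ?_)
      exact Finset.sum_nonneg fun i _ => snn _
    exact sub_nonneg.mp h1
  have hTnn : 0 ≤ T := hx₀.trans hxT
  have hfix : T - x₀ = θ • Th u T := by
    let Φ : D →+ D := AddMonoidHom.mk' (fun x => θ • Th u x) (fun x y => by
      rw [Th_add, smul_add])
    have hΦ : Continuous Φ := by
      change Continuous fun x => θ • Th u x
      exact (Th_cont u).const_smul θ
    have h1 : HasSum (fun m => Φ (s m)) (Φ T) := hTs.map Φ hΦ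
    exact hshift.unique h1
  have hTh : Th u T ≤ (4 * (r : ℝ) + 1) • T := by
    have h1 : Th u T = (4 * (r : ℝ) + 1) • (T - x₀) := by
      rw [hfix, smul_smul]
      have : (4 * (r : ℝ) + 1) * θ = 1 := by rw [hθ]; field_simp
      rw [this, one_smul]
    rw [h1]
    exact smul_le_smul_of_nonneg_left (by simpa using hx₀) (by positivity)
  refine ⟨T, hTE, hxT, hTn, hTt, fun i => ?_, fun i => ?_⟩
  · refine le_trans ?_ hTh
    have h1 : u i * T * star (u i) ≤ u i * T * star (u i) + star (u i) * T * u i := by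
      have := star_left_conjugate_nonneg hTnn (u i)
      simpa using this
    refine h1.trans ?_
    exact Finset.single_le_sum (f := fun i => u i * T * star (u i) + star (u i) * T * u i)
      (fun j _ => add_nonneg (star_right_conjugate_nonneg hTnn (u j))
        (star_left_conjugate_nonneg hTnn (u j))) (Finset.mem_univ i)
  · refine le_trans ?_ hTh
    have h1 : star (u i) * T * u i ≤ u i * T * star (u i) + star (u i) * T * u i := by
      have := star_right_conjugate_nonneg hTnn (u i)
      simpa using this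
    refine h1.trans ?_
    exact Finset.single_le_sum (f := fun i => u i * T * star (u i) + star (u i) * T * u i)
      (fun j _ => add_nonneg (star_right_conjugate_nonneg hTnn (u j))
        (star_left_conjugate_nonneg hTnn (u j))) (Finset.mem_univ i)

end Pool.Agent.FT
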